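import Pool.Agent.AD.ChartBasic

/-!
# BPm ChartClosed: the closed cone of a closed bidisc

`S = {x ∈ X | x ∈ U, ‖q x‖ ≤ r} = {c • σ p | c ≠ 0, ‖p‖ ≤ r}` (`r < 2`; `Vd d` has the sup norm), so
`S ∪ {0} = {c • σ p | c : ℂ, ‖p‖ ≤ r}`. Closed: let `c_n • σ p_n → x`. The closed ball is compact,
pass to a subsequence `p_n → p`; `‖σ‖ ≥ b > 0` on the closed ball, so `c_n` is bounded, pass to a
subsequence `c_n → c`; `x = c • σ p`.
-/

open Topology Filter Metric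

namespace Pool.Agent.AD

open Pool.Agent.H36.BP
open Pool.Agent.H14.PP (IsCone CurveAt Tan IsOpenPart)

variable {N d : ℕ} {X K T : Set (EN N)}

private theorem ChartClosed_mem (hX : IsCone X) (χ : Chart d X) {r : ℝ} (hr0 : 0 ≤ r) (hr : r < 2)
    (x : EN N) : x ∈ insert (0 : EN N) {x | x ∈ X ∧ x ∈ χ.U ∧ ‖χ.q x‖ ≤ r} ↔
      ∃ (c : ℂ) (p : Vd d), p ∈ closedBall (0 : Vd d) r ∧ x = c • χ.σ p := by
  constructor
  · rintro (rfl | ⟨h1, h2, h3⟩)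
    · exact ⟨0, 0, mem_closedBall_self hr0, by rw [zero_smul]⟩
    · obtain ⟨-, c, -, hc⟩ := χ.surj x h1 h2
      exact ⟨c, χ.q x, mem_closedBall_zero_iff.mpr h3, hc⟩
  · rintro ⟨c, p, hp, rfl⟩
    by_cases hc : c = 0
    · left
      rw [hc, zero_smul]
    · right
      obtain ⟨h1, h2, h3⟩ := χ.σ_mem p (closedBall_subset_ball hr hp)
      refine ⟨hX.smul_mem _ h1 c hc, χ.smul_U _ h2 c hc, ?_⟩
      rw [χ.q_smul _ h2 c hc, h3]
      exact mem_closedBall_zero_iff.mp hp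

theorem Chart.isClosed (hX : IsCone X) (χ : Chart d X) {r : ℝ} (hr0 : 0 ≤ r) (hr : r < 2) :
    IsClosed (insert (0 : EN N) {x | x ∈ X ∧ x ∈ χ.U ∧ ‖χ.q x‖ ≤ r}) := by
  have hcomp : IsCompact (closedBall (0 : Vd d) r) := isCompact_closedBall _ _
  have hcont : ContinuousOn χ.σ (closedBall (0 : Vd d) r) := fun p hp =>
    (χ.σ_an p (closedBall_subset_ball hr hp)).continuousAt.continuousWithinAt
  obtain ⟨p₀, hp₀, hmin⟩ := hcomp.exists_isMinOn ⟨0, mem_closedBall_self hr0⟩ hcont.norm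
  set b : ℝ := ‖χ.σ p₀‖ with hb
  have hbpos : 0 < b := norm_pos_iff.mpr
    (χ.sigma_ne_zero hX (closedBall_subset_ball hr hp₀))
  refine isClosed_of_closure_subset fun x hx => ?_
  set M : ℝ := (‖x‖ + 1) / b with hM
  have hK : IsCompact ((fun z : ℂ × (Vd d) => z.1 • χ.σ z.2) ''
      (closedBall (0 : ℂ) M ×ˢ closedBall (0 : Vd d) r)) := by
    refine ((isCompact_closedBall _ _).prod hcomp).image_of_continuousOn ?_
    refine continuousOn_fst.smul (hcont.comp continuousOn_snd ?_)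
    intro z hz
    exact hz.2
  have h1 : x ∈ closure (ball x 1 ∩ insert (0 : EN N) {x | x ∈ X ∧ x ∈ χ.U ∧ ‖χ.q x‖ ≤ r}) :=
    isOpen_ball.inter_closure ⟨mem_ball_self one_pos, hx⟩
  have h2 : ball x 1 ∩ insert (0 : EN N) {x | x ∈ X ∧ x ∈ χ.U ∧ ‖χ.q x‖ ≤ r} ⊆
      (fun z : ℂ × (Vd d) => z.1 • χ.σ z.2) ''
        (closedBall (0 : ℂ) M ×ˢ closedBall (0 : Vd d) r) := by
    rintro y ⟨hy1, hy2⟩
    obtain ⟨c, p, hp, rfl⟩ := (ChartClosed_mem hX χ hr0 hr y).mp hy2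
    refine ⟨(c, p), ⟨?_, hp⟩, rfl⟩
    rw [mem_closedBall_zero_iff, hM, le_div_iff₀ hbpos]
    have h3 : b ≤ ‖χ.σ p‖ := hmin hp
    have h4 : ‖c • χ.σ p‖ ≤ ‖x‖ + 1 := by
      have h5 : ‖c • χ.σ p - x‖ < 1 := by
        rw [← dist_eq_norm]
        exact hy1
      have h6 : c • χ.σ p = (c • χ.σ p - x) + x := by abel
      rw [h6]
      refine (norm_add_le _ _).trans ?_
      linarith
    rw [norm_smul] at h4
    exact (mul_le_mul_of_nonneg_left h3 (norm_nonneg c)).trans h4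
  have h3 := (hK.isClosed.closure_subset_iff.mpr h2) h1
  obtain ⟨⟨c, p⟩, ⟨-, hp⟩, rfl⟩ := h3
  exact (ChartClosed_mem hX χ hr0 hr _).mpr ⟨c, p, hp, rfl⟩

end Pool.Agent.AD
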