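import Pool.Agent.AD.ChartBasic

/-!
# BPm ChartFs: comparison of the Fubini–Study length with the length in a chart

Both sides are invariant under `x ↦ c x`, `v ↦ c v` (`fs_inv`, `Chart.fderiv_q_smul`), so by
`surj` let `x = σ p`, `‖p‖ ≤ 1`.
(a) `Dq(x) v = Dq(x) (v - a x)`, `a = ⟪x,v⟫/‖x‖^2` (`Chart.fderiv_q_self`), so
`‖Dq(x) v‖ ≤ ‖Dq(σ p)‖ ‖σ p‖ fs x v` (`fs_eq`); `p ↦ ‖Dq(σ p)‖ ‖σ p‖` is continuous on the compact
closed ball of radius `1`.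
(b) `F = c • σ (q F)` near `z₀` (`Chart.curve`), so `F' z₀ = c' σ + c Dσ(p) w`, `w = (q ∘ F)' z₀`,
`fs (F z₀) (F' z₀) = fs (σ p) (Dσ(p) w)` (`fs_inv`) `≤ ‖Dσ(p)‖ ‖w‖/‖σ p‖` (`fs_le`); again
compactness.
-/

open Topology Filter Metric

namespace Pool.Agent.AD

open Pool.Agent.H36.BP
open Pool.Agent.H14.PP (IsCone CurveAt Tan IsOpenPart fs_eq fs_le)

variable {N d : ℕ} {X K T : Set (EN N)}

private theorem ChartFs_bdd {f : Vd d → ℝ} (hf : ContinuousOn f (closedBall (0 : Vd d) 1)) :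
    ∃ C : ℝ, ∀ p ∈ closedBall (0 : Vd d) 1, f p ≤ C := by
  obtain ⟨C, hC⟩ := (isCompact_closedBall (0 : Vd d) 1).bddAbove_image hf
  exact ⟨C, fun p hp => hC (Set.mem_image_of_mem f hp)⟩

private theorem ChartFs_sub {p : Vd d} (hp : p ∈ closedBall (0 : Vd d) 1) :
    p ∈ ball (0 : Vd d) 2 :=
  closedBall_subset_ball (by norm_num) hp

private theorem ChartFs_a (χ : Chart d X) :
    ∃ C : ℝ, ∀ p ∈ closedBall (0 : Vd d) 1, ‖fderiv ℂ χ.q (χ.σ p)‖ * ‖χ.σ p‖ ≤ C := by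
  apply ChartFs_bdd
  intro p hp
  have hp2 := ChartFs_sub hp
  have h1 : ContinuousAt χ.σ p := (χ.σ_an p hp2).continuousAt
  have h2 : ContinuousAt (fderiv ℂ χ.q) (χ.σ p) :=
    (χ.q_an (χ.σ p) (χ.σ_mem p hp2).2.1).fderiv.continuousAt
  have h3 : ContinuousAt (fun p => fderiv ℂ χ.q (χ.σ p)) p := ContinuousAt.comp (g := fderiv ℂ χ.q) h2 h1
  exact (h3.norm.mul h1.norm).continuousWithinAt

private theorem ChartFs_b (hX : IsCone X) (χ : Chart d X) :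
    ∃ C : ℝ, ∀ p ∈ closedBall (0 : Vd d) 1, ‖fderiv ℂ χ.σ p‖ / ‖χ.σ p‖ ≤ C := by
  apply ChartFs_bdd
  intro p hp
  have hp2 := ChartFs_sub hp
  have h1 : ContinuousAt χ.σ p := (χ.σ_an p hp2).continuousAt
  have h2 : ContinuousAt (fderiv ℂ χ.σ) p := (χ.σ_an p hp2).fderiv.continuousAt
  exact (h2.norm.div h1.norm (norm_ne_zero_iff.mpr (Chart.sigma_ne_zero hX χ hp2))).continuousWithinAt

theorem Chart.exists_fs_bound (hX : IsCone X) (χ : Chart d X) :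
    ∃ C : ℝ, 1 ≤ C ∧
      (∀ x ∈ X, x ∈ χ.U → ‖χ.q x‖ ≤ 1 → ∀ v, ‖fderiv ℂ χ.q x v‖ ≤ C * fs x v) ∧
      ∀ (F : ℂ → EN N) (z₀ : ℂ), CurveAt X F z₀ → F z₀ ∈ χ.U → ‖χ.q (F z₀)‖ ≤ 1 →
        fs (F z₀) (deriv F z₀) ≤ C * ‖deriv (fun z => χ.q (F z)) z₀‖ := by
  obtain ⟨C₁, hC₁⟩ := ChartFs_a χ
  obtain ⟨C₂, hC₂⟩ := ChartFs_b hX χ
  refine ⟨max 1 (max C₁ C₂), le_max_left _ _, ?_, ?_⟩
  · intro x hx hU hq v
    obtain ⟨hb, c, hc, hxc⟩ := χ.surj x hx hU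
    set p := χ.q x with hp
    have hp1 : p ∈ closedBall (0 : Vd d) 1 := by
      rw [mem_closedBall, dist_zero_right]; exact hq
    have hp2 : p ∈ ball (0 : Vd d) 2 := ChartFs_sub hp1
    have hy0 : χ.σ p ≠ 0 := Chart.sigma_ne_zero hX χ hp2
    have hyU : χ.σ p ∈ χ.U := (χ.σ_mem p hp2).2.1
    set y := χ.σ p with hy
    have hv : v = c • (c⁻¹ • v) + (0 : ℂ) • y := by
      rw [smul_inv_smul₀ hc, zero_smul, add_zero]
    have e1 : fderiv ℂ χ.q x v = fderiv ℂ χ.q y (c⁻¹ • v) := by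
      conv_lhs => rw [hxc, hv]
      exact χ.fderiv_q_smul hyU (c⁻¹ • v) hc 0
    have e2 : fs x v = fs y (c⁻¹ • v) := by
      conv_lhs => rw [hxc, hv]
      exact fs_inv hy0 (c⁻¹ • v) hc 0
    rw [e1, e2]
    set v' := c⁻¹ • v with hv'
    set a : ℂ := inner ℂ y v' / (‖y‖ : ℂ) ^ 2 with ha
    have e3' : fderiv ℂ χ.q y (a • y) = 0 := by
      rw [map_smul, χ.fderiv_q_self hyU, smul_zero]
    have e3 : fderiv ℂ χ.q y v' = fderiv ℂ χ.q y (v' - a • y) := by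
      rw [map_sub, e3', sub_zero]
    have hyn : 0 < ‖y‖ := norm_pos_iff.mpr hy0
    have e4 : ‖v' - a • y‖ = ‖y‖ * fs y v' := by
      rw [fs_eq hy0, ← ha]
      field_simp
    calc ‖fderiv ℂ χ.q y v'‖ = ‖fderiv ℂ χ.q y (v' - a • y)‖ := by rw [e3]
      _ ≤ ‖fderiv ℂ χ.q y‖ * ‖v' - a • y‖ := ContinuousLinearMap.le_opNorm _ _
      _ = (‖fderiv ℂ χ.q y‖ * ‖y‖) * fs y v' := by rw [e4]; ring
      _ ≤ C₁ * fs y v' := mul_le_mul_of_nonneg_right (hC₁ p hp1) (fs_nonneg _ _)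
      _ ≤ max 1 (max C₁ C₂) * fs y v' :=
        mul_le_mul_of_nonneg_right ((le_max_left _ _).trans (le_max_right _ _)) (fs_nonneg _ _)
  · intro F z₀ hF hU hq
    obtain ⟨han, -, c, hcan, hc0, hev⟩ := Chart.curve hX χ hF hU
    have hev0 := hev.self_of_nhds
    set p := χ.q (F z₀) with hp
    have hp1 : p ∈ closedBall (0 : Vd d) 1 := by
      rw [mem_closedBall, dist_zero_right]; exact hq
    have hp2 : p ∈ ball (0 : Vd d) 2 := ChartFs_sub hp1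
    have hy0 : χ.σ p ≠ 0 := Chart.sigma_ne_zero hX χ hp2
    set w := deriv (fun z => χ.q (F z)) z₀ with hw
    have hq' : HasDerivAt (fun z => χ.q (F z)) w z₀ := han.differentiableAt.hasDerivAt
    have hσ' : HasFDerivAt χ.σ (fderiv ℂ χ.σ p) p := (χ.σ_an p hp2).differentiableAt.hasFDerivAt
    have hcomp : HasDerivAt (fun z => χ.σ (χ.q (F z))) (fderiv ℂ χ.σ p w) z₀ :=
      HasFDerivAt.comp_hasDerivAt (l := χ.σ) z₀ hσ' hq'
    have hprod : HasDerivAt (fun z => c z • χ.σ (χ.q (F z)))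
        (c z₀ • fderiv ℂ χ.σ p w + deriv c z₀ • χ.σ p) z₀ :=
      hcan.differentiableAt.hasDerivAt.smul hcomp
    have hFd : deriv F z₀ = c z₀ • fderiv ℂ χ.σ p w + deriv c z₀ • χ.σ p := by
      have h1 : F =ᶠ[𝓝 z₀] fun z => c z • χ.σ (χ.q (F z)) := hev.mono fun z hz => hz.2
      rw [h1.deriv_eq]
      exact hprod.deriv
    have e1 : fs (F z₀) (deriv F z₀) = fs (χ.σ p) (fderiv ℂ χ.σ p w) := by
      rw [hFd]
      conv_lhs => rw [hev0.2]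
      exact fs_inv hy0 _ hc0 _
    rw [e1]
    calc fs (χ.σ p) (fderiv ℂ χ.σ p w) ≤ ‖fderiv ℂ χ.σ p w‖ / ‖χ.σ p‖ := fs_le hy0 _
      _ ≤ ‖fderiv ℂ χ.σ p‖ * ‖w‖ / ‖χ.σ p‖ := by
        gcongr
        exact ContinuousLinearMap.le_opNorm _ _
      _ = (‖fderiv ℂ χ.σ p‖ / ‖χ.σ p‖) * ‖w‖ := by ring
      _ ≤ C₂ * ‖w‖ := mul_le_mul_of_nonneg_right (hC₂ p hp1) (norm_nonneg _)
      _ ≤ max 1 (max C₁ C₂) * ‖w‖ :=
        mul_le_mul_of_nonneg_right ((le_max_right _ _).trans (le_max_right _ _)) (norm_nonneg _)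

end Pool.Agent.AD
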