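import Pool.Agent.AD.Defs
import Pool.Agent.H14.PP.CurveBasic

/-!
# BPm ChartBasic: charts, basic facts

* `Chart.fderiv_q_smul`: `q (c • y) = q y` for `y` near `x ∈ U` (`U` open); differentiate:
  `Dq(c x) (c v) = Dq(x) v`; and `Dq(x) x = 0` (differentiate `q ((1 + h) • x) = q x` at `h = 0`).
* `Chart.fderiv_sigma`: derivative of `q ∘ σ = id` on the bidisc: `Dq(σ p) (Dσ(p) w) = w`.
* `Chart.tan`: the curve `z ↦ σ (p + z • w)`; if `σ p ∈ K` it stays in `K` (`rel_open`).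
* `Chart.curve`: `q ∘ F` is analytic at `z₀` (composition), its derivative is given by the chain
  rule. For `z` near `z₀`, `F z ∈ X ∩ U`, so `q (F z) ∈ ball 0 2` and `F z = c z • σ (q (F z))` with
  `c z ≠ 0` (`surj`). With `y = σ (q (F z₀)) ≠ 0`: `c z = ⟪y, F z⟫ / ⟪y, σ (q (F z))⟫` near `z₀`:
  analytic.
* `Chart.sigma_mem_iff`: for `x ∈ X ∩ U`, `x = c • σ (q x)`, so `x ∈ K ↔ σ (q x) ∈ K`.
-/

open Topology Filter Metric

namespace Pool.Agent.AD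

open Pool.Agent.H36.BP
open Pool.Agent.H14.PP (IsCone CurveAt Tan IsOpenPart rho rho_smul)

variable {N d : ℕ} {X K T : Set (EN N)}

theorem Chart.sigma_ne_zero (hX : IsCone X) (χ : Chart d X) {p : Vd d}
    (hp : p ∈ ball (0 : Vd d) 2) : χ.σ p ≠ 0 :=
  hX.ne_zero (χ.σ_mem p hp).1

private theorem ChartBasic_q_self (χ : Chart d X) {x : EN N} (hx : x ∈ χ.U) :
    fderiv ℂ χ.q x x = 0 := by
  have hq : HasFDerivAt χ.q (fderiv ℂ χ.q x) x := (χ.q_an x hx).differentiableAt.hasFDerivAt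
  have hl : HasDerivAt (fun h : ℂ => (1 + h) • x) x 0 := by
    have h1 : HasDerivAt (fun h : ℂ => 1 + h) 1 0 := by
      simpa using (hasDerivAt_id (0 : ℂ)).const_add (1 : ℂ)
    simpa using h1.smul_const x
  have hx0 : (fun h : ℂ => (1 + h) • x) 0 = x := by simp
  have hq' : HasFDerivAt χ.q (fderiv ℂ χ.q x) ((fun h : ℂ => (1 + h) • x) 0) := by
    rw [hx0]; exact hq
  have h2 : HasDerivAt (χ.q ∘ fun h : ℂ => (1 + h) • x) (fderiv ℂ χ.q x x) 0 :=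
    hq'.comp_hasDerivAt 0 hl
  have h3 : HasDerivAt (χ.q ∘ fun h : ℂ => (1 + h) • x) 0 0 := by
    apply (hasDerivAt_const (0 : ℂ) (χ.q x)).congr_of_eventuallyEq
    have h4 : ∀ᶠ h : ℂ in 𝓝 0, 1 + h ≠ 0 := by
      apply ContinuousAt.eventually_ne
      · fun_prop
      · simp
    filter_upwards [h4] with h hh
    exact χ.q_smul x hx _ hh
  exact h2.unique h3

theorem Chart.fderiv_q_smul (χ : Chart d X) {x : EN N} (hx : x ∈ χ.U) (v : EN N) {c : ℂ}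
    (hc : c ≠ 0) (a : ℂ) : fderiv ℂ χ.q (c • x) (c • v + a • x) = fderiv ℂ χ.q x v := by
  have hcx : c • x ∈ χ.U := χ.smul_U x hx c hc
  have h1 : HasFDerivAt χ.q (fderiv ℂ χ.q (c • x)) (c • x) :=
    (χ.q_an _ hcx).differentiableAt.hasFDerivAt
  have h2 : HasFDerivAt (fun y : EN N => c • y) (c • ContinuousLinearMap.id ℂ (EN N)) x :=
    (hasFDerivAt_id x).const_smul c
  have h3 : HasFDerivAt (χ.q ∘ fun y : EN N => c • y)
      ((fderiv ℂ χ.q (c • x)).comp (c • ContinuousLinearMap.id ℂ (EN N))) x := h1.comp x h2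
  have h4 : HasFDerivAt (χ.q ∘ fun y : EN N => c • y) (fderiv ℂ χ.q x) x := by
    apply (χ.q_an x hx).differentiableAt.hasFDerivAt.congr_of_eventuallyEq
    filter_upwards [χ.isOpen_U.mem_nhds hx] with y hy
    exact χ.q_smul y hy c hc
  have h5 := h3.unique h4
  have h6 : fderiv ℂ χ.q (c • x) (c • v) = fderiv ℂ χ.q x v := by
    rw [← h5]; simp
  have h7 : fderiv ℂ χ.q (c • x) x = 0 := by
    have h8 := ChartBasic_q_self χ hcx
    rw [map_smul] at h8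
    exact (smul_eq_zero.1 h8).resolve_left hc
  rw [map_add, h6, map_smul, h7, smul_zero, add_zero]

theorem Chart.fderiv_q_self (χ : Chart d X) {x : EN N} (hx : x ∈ χ.U) : fderiv ℂ χ.q x x = 0 :=
  ChartBasic_q_self χ hx

theorem Chart.fderiv_sigma (χ : Chart d X) {p : Vd d} (hp : p ∈ ball (0 : Vd d) 2) (w : Vd d) :
    fderiv ℂ χ.q (χ.σ p) (fderiv ℂ χ.σ p w) = w := by
  have h1 : HasFDerivAt χ.q (fderiv ℂ χ.q (χ.σ p)) (χ.σ p) :=
    (χ.q_an _ (χ.σ_mem p hp).2.1).differentiableAt.hasFDerivAt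
  have h2 : HasFDerivAt χ.σ (fderiv ℂ χ.σ p) p := (χ.σ_an p hp).differentiableAt.hasFDerivAt
  have h3 := h1.comp p h2
  have h4 : HasFDerivAt (χ.q ∘ χ.σ) (ContinuousLinearMap.id ℂ (Vd d)) p := by
    apply (hasFDerivAt_id p).congr_of_eventuallyEq
    filter_upwards [isOpen_ball.mem_nhds hp] with y hy
    exact (χ.σ_mem y hy).2.2
  have h5 := h3.unique h4
  have h6 := congrArg (fun L : (Vd d) →L[ℂ] (Vd d) => L w) h5
  simpa using h6

theorem Chart.tan (hK : IsOpenPart X K) (χ : Chart d X) {p : Vd d}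
    (hp : p ∈ ball (0 : Vd d) 2) (hpK : χ.σ p ∈ K) (w : Vd d) :
    Tan K (χ.σ p) (fderiv ℂ χ.σ p w) := by
  have hl : AnalyticAt ℂ (fun z : ℂ => p + z • w) 0 := by fun_prop
  have h0 : p + (0 : ℂ) • w = p := by simp
  have hσ : AnalyticAt ℂ χ.σ (p + (0 : ℂ) • w) := by rw [h0]; exact χ.σ_an p hp
  have hF : AnalyticAt ℂ (fun z : ℂ => χ.σ (p + z • w)) 0 :=
    AnalyticAt.comp (g := χ.σ) (f := fun z : ℂ => p + z • w) hσ hl
  refine ⟨fun z => χ.σ (p + z • w), ⟨hF, ?_⟩, by simp, ?_⟩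
  · have h1 : ∀ᶠ z : ℂ in 𝓝 0, χ.σ (p + z • w) ∈ X → χ.σ (p + z • w) ∈ K := by
      have h2 := hF.continuousAt
      have h3 := hK.rel_open _ hpK
      have h4 : χ.σ (p + (0 : ℂ) • w) = χ.σ p := by rw [h0]
      have h5 : Tendsto (fun z : ℂ => χ.σ (p + z • w)) (𝓝 0) (𝓝 (χ.σ p)) := by
        have := h2.tendsto
        rwa [h4] at this
      exact h5.eventually h3
    have h6 : ∀ᶠ z : ℂ in 𝓝 0, p + z • w ∈ ball (0 : Vd d) 2 := by
      have h7 := hl.continuousAt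
      apply h7.eventually_mem
      rw [h0]
      exact isOpen_ball.mem_nhds hp
    filter_upwards [h1, h6] with z hz hz'
    exact hz (χ.σ_mem _ hz').1
  · have h1 : HasFDerivAt χ.σ (fderiv ℂ χ.σ p) (p + (0 : ℂ) • w) := by
      rw [h0]
      exact (χ.σ_an p hp).differentiableAt.hasFDerivAt
    have h2 : HasDerivAt (fun z : ℂ => p + z • w) w 0 := by
      have h3 : HasDerivAt (fun z : ℂ => z • w) ((1 : ℂ) • w) 0 :=
        (hasDerivAt_id (0 : ℂ)).smul_const w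
      rw [one_smul] at h3
      exact h3.const_add p
    exact (h1.comp_hasDerivAt (0 : ℂ) h2).deriv

theorem Chart.curve (hX : IsCone X) (χ : Chart d X) {F : ℂ → EN N} {z₀ : ℂ} (hF : CurveAt X F z₀)
    (hU : F z₀ ∈ χ.U) :
    AnalyticAt ℂ (fun z => χ.q (F z)) z₀ ∧
    deriv (fun z => χ.q (F z)) z₀ = fderiv ℂ χ.q (F z₀) (deriv F z₀) ∧
    ∃ c : ℂ → ℂ, AnalyticAt ℂ c z₀ ∧ c z₀ ≠ 0 ∧
      ∀ᶠ z in 𝓝 z₀, χ.q (F z) ∈ ball (0 : Vd d) 2 ∧ F z = c z • χ.σ (χ.q (F z)) := by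
  have hq : AnalyticAt ℂ χ.q (F z₀) := χ.q_an _ hU
  have hqF : AnalyticAt ℂ (fun z => χ.q (F z)) z₀ := AnalyticAt.comp hq hF.1
  refine ⟨hqF, ?_, ?_⟩
  · have h1 : HasFDerivAt χ.q (fderiv ℂ χ.q (F z₀)) (F z₀) := hq.differentiableAt.hasFDerivAt
    have h2 : HasDerivAt F (deriv F z₀) z₀ := hF.1.differentiableAt.hasDerivAt
    exact (h1.comp_hasDerivAt z₀ h2).deriv
  · have hX0 : F z₀ ∈ X := hF.mem
    obtain ⟨hb, c0, hc0, hF0⟩ := χ.surj _ hX0 hU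
    have hσ : AnalyticAt ℂ (fun z => χ.σ (χ.q (F z))) z₀ :=
      AnalyticAt.comp (g := χ.σ) (f := fun z => χ.q (F z)) (χ.σ_an _ hb) hqF
    set y : EN N := χ.σ (χ.q (F z₀)) with hy
    have hy0 : y ≠ 0 := Chart.sigma_ne_zero hX χ hb
    have hn : AnalyticAt ℂ (fun z => inner ℂ y (F z)) z₀ :=
      AnalyticAt.comp (g := fun x : EN N => (innerSL ℂ y) x) (f := F)
        ((innerSL ℂ y).analyticAt _) hF.1
    have hd : AnalyticAt ℂ (fun z => inner ℂ y (χ.σ (χ.q (F z)))) z₀ :=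
      AnalyticAt.comp (g := fun x : EN N => (innerSL ℂ y) x) (f := fun z => χ.σ (χ.q (F z)))
        ((innerSL ℂ y).analyticAt _) hσ
    have hd0 : (fun z => inner ℂ y (χ.σ (χ.q (F z)))) z₀ ≠ (0 : ℂ) := by
      show inner ℂ y y ≠ (0 : ℂ)
      exact inner_self_ne_zero.2 hy0
    refine ⟨fun z => inner ℂ y (F z) / inner ℂ y (χ.σ (χ.q (F z))), hn.div hd hd0, ?_, ?_⟩
    · refine div_ne_zero ?_ hd0
      rw [hF0, inner_smul_right]
      exact mul_ne_zero hc0 (inner_self_ne_zero.2 hy0)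
    · have hev : ∀ᶠ z in 𝓝 z₀, (fun z => inner ℂ y (χ.σ (χ.q (F z)))) z ≠ (0 : ℂ) :=
        hd.continuousAt.eventually_ne hd0
      have hevU : ∀ᶠ z in 𝓝 z₀, F z ∈ χ.U :=
        hF.1.continuousAt.eventually_mem (χ.isOpen_U.mem_nhds hU)
      filter_upwards [hev, hevU, hF.2] with z h1 h2 h3
      obtain ⟨h4, c, hc, h5⟩ := χ.surj _ h3 h2
      refine ⟨h4, ?_⟩
      have h6 : inner ℂ y (F z) / inner ℂ y (χ.σ (χ.q (F z))) = c := by
        rw [div_eq_iff h1]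
        conv_lhs => rw [h5]
        rw [inner_smul_right]
      rw [h6]
      exact h5

theorem Chart.sigma_mem_iff (χ : Chart d X) {x : EN N} (hx : x ∈ X) (hU : x ∈ χ.U) {S : Set (EN N)}
    (hS : ∀ y ∈ S, ∀ c : ℂ, c ≠ 0 → c • y ∈ S) : χ.σ (χ.q x) ∈ S ↔ x ∈ S := by
  obtain ⟨_, c, hc, h1⟩ := χ.surj x hx hU
  constructor
  · intro h
    rw [h1]
    exact hS _ h c hc
  · intro h
    have h2 : χ.σ (χ.q x) = c⁻¹ • x := by
      conv_rhs => rw [h1]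
      rw [smul_smul, inv_mul_cancel₀ hc, one_smul]
    rw [h2]
    exact hS _ h _ (inv_ne_zero hc)

theorem Chart.rho_sigma {W : Type*} [NormedAddCommGroup W] [InnerProductSpace ℂ W]
    {Q : EN N → W} {D : ℕ} (hQ : ∀ (c : ℂ) (x : EN N), Q (c • x) = c ^ D • Q x) (χ : Chart d X)
    {x : EN N} (hx : x ∈ X) (hU : x ∈ χ.U) : rho Q D (χ.σ (χ.q x)) = rho Q D x := by
  obtain ⟨_, c, hc, h1⟩ := χ.surj x hx hU
  conv_rhs => rw [h1]
  rw [rho_smul hQ hc]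

end Pool.Agent.AD
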