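import Pool.Agent.AD.Germ
import Pool.Agent.H13.SM.Cone
import Pool.Agent.H17EF.Bridge

/-!
# AD Cone: charts of the cone of a smooth projective variety of dimension `n`
-/

set_option autoImplicit false

open MvPolynomial Topology Filter Metric

namespace Pool.Agent.AD

open Pool.Agent.H36.BP (EN)
open Pool.Agent.H14.PP (IsCone)
open Pool.Agent.H62.FC (Homog)
open Pool.Agent.H17LG.Variety (FunField)
open Pool.Agent.H13.SM (conTan cone cone_smul exists_coneChart)
open Pool.Agent.H17EF (LE coneE)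

variable {N : ℕ} {P : Ideal (MvPolynomial (Fin (N + 1)) ℂ)}

theorem isCone_coneE (hP : Homog P) : IsCone (coneE P) := by
  refine ⟨?_, ?_, ?_⟩
  · intro h
    exact h.1 (map_zero _)
  · intro x hx c hc
    show (LE N).symm (c • x) ∈ cone P
    rw [map_smul]
    exact ⟨smul_ne_zero hc hx.1, cone_smul hP hx.2 c⟩
  · have h1 : insert (0 : EN N) (coneE P) = insert (0 : EN N) (⋂ Q ∈ P, {y : EN N | eval ((LE N).symm y) Q = 0}) := by
      ext y
      by_cases h0 : y = 0
      · simp [h0]
      · have h2 : (LE N).symm y ≠ 0 := fun h => h0 ((LE N).symm.map_eq_zero_iff.1 h)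
        constructor
        · rintro (h | h)
          · exact absurd h h0
          · right
            simp only [Set.mem_iInter]
            intro Q hQ
            exact h.2 Q hQ
        · rintro (h | h)
          · exact absurd h h0
          · right
            simp only [Set.mem_iInter] at h
            exact ⟨h2, fun Q hQ => h Q hQ⟩
    rw [h1, Set.insert_eq]
    refine isClosed_singleton.union (isClosed_biInter fun Q _ => ?_)
    exact isClosed_eq ((MvPolynomial.continuous_eval Q).comp (LE N).symm.continuous) continuous_const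

/-- The chart with the coordinate ratios `x (I k) / x l` as parameters. -/
theorem exists_ratioGerm [P.IsPrime] (hP : Homog P) {n : ℕ} {z : Fin n → FunField P} (hz : IsTranscendenceBasis ℂ z)
    (hsm : ∀ y : Fin (N + 1) → ℂ, y ≠ 0 → (∀ Q ∈ P, eval y Q = 0) → Module.finrank ℂ (conTan P y) ≤ n + 1)
    {x : EN N} (hx : x ∈ coneE P) {l : Fin (N + 1)} (hl : (LE N).symm x l ≠ 0) :
    ∃ (I : Fin n → Fin (N + 1)) (σ : Vd n → EN N),
      IsGerm (coneE P) σ (fun y k => (LE N).symm y (I k) / (LE N).symm y l - (LE N).symm x (I k) / (LE N).symm x l) ∧ σ 0 = x := by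
  obtain ⟨I, σ, h1, h2, h3, h4, -⟩ := exists_coneChart hP hz hsm hx.2 hl
  have hL : ∀ y : Fin (N + 1) → ℂ, (LE N).symm ((LE N) y) = y := (LE N).symm_apply_apply
  have hσ0 : (LE N) (σ 0) = x := by rw [h2, ContinuousLinearEquiv.apply_symm_apply]
  refine ⟨I, fun u => (LE N) (σ u), ⟨?_, ?_, ?_, ?_, ?_, ?_⟩, hσ0⟩
  · exact (((LE N) : (Fin (N + 1) → ℂ) →L[ℂ] EN N).analyticAt _).comp h1
  · filter_upwards [h3] with u hu
    show (LE N).symm ((LE N) (σ u)) ∈ cone P
    rw [hL]
    refine ⟨?_, hu.1⟩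
    intro h0
    apply hl
    rw [← hu.2.1, h0]
    rfl
  · show AnalyticAt ℂ _ ((LE N) (σ 0))
    rw [hσ0]
    have hpr : ∀ i : Fin (N + 1), AnalyticAt ℂ (fun y : EN N => (LE N).symm y i) x := fun i =>
      ((ContinuousLinearMap.proj (R := ℂ) (φ := fun _ : Fin (N + 1) => ℂ) i).comp ((LE N).symm : EN N →L[ℂ] (Fin (N + 1) → ℂ))).analyticAt x
    exact AnalyticAt.pi fun k => ((hpr _).div (hpr l) hl).sub analyticAt_const
  · filter_upwards [h3] with u hu
    funext k
    simp only [hL]
    rw [hu.2.1, hu.2.2 k]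
    field_simp
    ring
  · rw [hσ0]
    have ht : Tendsto (fun y : EN N => (LE N).symm y) (𝓝 x) (𝓝 ((LE N).symm x)) := (LE N).symm.continuous.tendsto x
    have hne : ∀ᶠ y in 𝓝 ((LE N).symm x), (y : Fin (N + 1) → ℂ) l ≠ 0 := (continuous_apply l).continuousAt.eventually_ne hl
    filter_upwards [ht.eventually h4, ht.eventually hne] with y hy hyl hyX
    refine ⟨(LE N).symm y l / (LE N).symm x l, div_ne_zero hyl hl, ?_⟩
    have h5 := hy hyX.2
    rw [← map_smul, ← h5, ContinuousLinearEquiv.apply_symm_apply]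
  · rw [hσ0]
    have h7 : ∀ᶠ p in 𝓝 (x, (1 : ℂ)), p.2 ≠ 0 := by
      have : ContinuousAt (fun p : EN N × ℂ => p.2) (x, (1 : ℂ)) := continuousAt_snd
      exact this.eventually_ne one_ne_zero
    filter_upwards [h7] with p hp
    funext k
    simp only [map_smul, Pi.smul_apply, smul_eq_mul]
    rw [mul_div_mul_left _ _ hp]

theorem charts_coneE [P.IsPrime] (hP : Homog P) {n : ℕ} {z : Fin n → FunField P} (hz : IsTranscendenceBasis ℂ z)
    (hsm : ∀ y : Fin (N + 1) → ℂ, y ≠ 0 → (∀ Q ∈ P, eval y Q = 0) → Module.finrank ℂ (conTan P y) ≤ n + 1) :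
    Charts n (coneE P) := by
  intro x hx
  obtain ⟨l, hl⟩ : ∃ l, (LE N).symm x l ≠ 0 := by
    by_contra h
    push Not at h
    exact hx.1 (funext h)
  obtain ⟨I, σ, hg, h0⟩ := exists_ratioGerm hP hz hsm hx hl
  obtain ⟨χ, h1, h2⟩ := exists_chart_of_germ (isCone_coneE hP) hg
  rw [h0] at h1 h2
  exact ⟨χ, h1, h2⟩

end Pool.Agent.AD
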